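import Mathlib
import Pool.Agent.Q64.CT.Defs

/-!
# Products of abelian varieties with unrelated varieties: one weight at a time
-/

set_option autoImplicit false

open CategoryTheory AlgebraicGeometry

universe u v w

namespace Pool.Agent.Q64.CT

open Polynomial Pool.Agent.H914 Pool.Agent.H914.VarClass Pool.Agent.H914.VarClass.Obj
  Pool.Agent.W492.BB Pool.Agent.W484.CK Pool.Agent.Y1.CT

section

variable {k : Type u} [Field k] {𝒱 : VarClass k} {C : TheoryData.{u, v, 0} 𝒱 ℚ}

/-- The properties of the higher Chow groups with rational coefficients: `T m` stands for the groups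
`CH^i(X, m)_ℚ = H^(2 i - m)(X, ℚ(i))`, `i ∈ ℤ`. Correspondences act on them with the usual rules,
and the Frobenius endomorphism `π` relative to the field with `Q` elements acts on `CH^i(X, m)_ℚ` as
multiplication by `Q ^ i`. -/
structure IsHigherChow (T : ℕ → MotivicData C) {X : 𝒱.Obj} (π : X ⟶ X) (Q : ℕ) : Prop where
  motivic : ∀ m, IsMotivic (T m)
  frobenius : ∀ m, ActsAsPower (T m) π Q

/-- Parshin's conjecture for `X` in weight `n`: `H^i(X, ℚ(n)) = 0` for all `i ≠ 2 n`, that is
`CH^n(X, m)_ℚ = 0` for all `m ≥ 1`. -/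
def ParshinIn (T : ℕ → MotivicData C) (X : 𝒱.Obj) (n : ℤ) : Prop :=
  ∀ m, 1 ≤ m → ∀ x : (T m).M X, (T m).Deg n x → x = 0

variable {F : Type w} [Field F] [CharZero F] (H : WeilTheoryData.{u, v, w} C F)

/-- The cycle class map from `F ⊗ CH^n(X)` to the cohomology of `X` with coefficients in `F` is
injective: if `c 1, c 2, …` are elements of `F` which are linearly independent over the rational
numbers and `x 1, x 2, …` classes in `CH^n(X)_ℚ` with `∑ c i • cl (x i) = 0`, then all `x i` are
zero. (Every element of `F ⊗ CH^n(X)` can be written as `∑ c i ⊗ x i` with such `c i`, and is zero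
if and only if all `x i` are.) -/
def CycleMapInjective (X : 𝒱.Obj) (n : ℤ) : Prop :=
  ∀ (r : ℕ) (c : Fin r → F) (x : Fin r → C.A X), LinearIndependent ℚ c → (∀ i, C.Deg n (x i)) →
    ∑ i, c i • H.cl (x i) = 0 → ∀ i, x i = 0

/-- Beilinson's conjecture for the smooth projective variety `X` in weight `n`: the cycle class maps
from `F ⊗ CH^n(X, m)`, `m ≥ 0`, to the Galois invariants of the cohomology of degree `2 n - m` with
coefficients in `F(n)` are injective. For `m ≥ 1` the Galois invariants are zero by the Riemann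
hypothesis of Deligne, and the statement is that `CH^n(X, m)_ℚ` vanishes. -/
def BeilinsonIn (T : ℕ → MotivicData C) (X : 𝒱.Obj) (n : ℤ) : Prop :=
  CycleMapInjective H X n ∧ ParshinIn T X n

/-- The statement `BP(n)` for `X`: the pairings
`H^i(X, ℚ(n)) × H^(2 d - i)(X, ℚ(d - n)) → ℚ`, `d = dim X`, are perfect for all `i`. For `i = 2 n`
this is the pairing of `CH^n(X)_ℚ` and `CH^(d - n)(X)_ℚ`. For `i = 2 n - m` with `m ≥ 1` the second
group is zero, for `i = 2 n + m` the first group, and the statement is that `CH^n(X, m)_ℚ` and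
`CH^(d - n)(X, m)_ℚ` vanish. -/
def PairingIn (T : ℕ → MotivicData C) (X : 𝒱.Obj) (n : ℤ) : Prop :=
  PerfectAt C X n ∧ ParshinIn T X n ∧ ParshinIn T X (X.dim - n)

end

/-- `WeightReduces K q f`: the following holds for the Chow groups `C` with rational coefficients of
all classes `𝒱` of varieties over fields `k` (finite, in the intended use), every Weil cohomology
theory `H` with coefficients in an algebraically closed field `F` of characteristic zero and all
`A`, `Z` as in `IsNilPair`, where the Frobenius endomorphism `πA × πZ` of `A × Z` acts on its Chow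
groups in the usual way. There are products `D j` of `deg j` divisor classes on `A`, finitely many,
such that for the higher Chow groups `T m`, `m ≥ 0`, the Kunneth formula
`CH^i(A × Z, m)_ℚ = ⨁ D j × CH^(i - deg j)(Z, m)_ℚ` holds for all `i`, and for every `n`
Parshin's conjecture holds for `A × Z` in weight `n` if and only if it holds for `Z` in all weights
`l` with `n - dim A ≤ l ≤ n`. -/
def WeightReduces {I : Type} (K : I → Type) [∀ i, Field (K i)] (q : ℕ) (f : I → ℤ[X]) : Prop :=
  ∀ (k : Type) [Field k] (𝒱 : VarClass k) (C : TheoryData.{0, 0, 0} 𝒱 ℚ) [IsChow C]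
    (F : Type) [Field F] [IsAlgClosed F] [CharZero F] (H : WeilTheoryData.{0, 0, 0} C F)
    [IsWeil H] (s : ℕ) (A Z : 𝒱.Obj) (πA : A ⟶ A) (πZ : Z ⟶ Z),
      IsNilPair H K q s f πA πZ → IsFrobenius C (prodMap πA πZ) (q ^ s) →
        ∃ (J : Type) (_ : Fintype J) (deg : J → ℕ) (D : J → C.A A),
          (∀ j, DivisorProduct C (deg j) (D j)) ∧ ∀ T : ℕ → MotivicData C,
            IsHigherChow T (prodMap πA πZ) (q ^ s) → (∀ m, HasKunneth (T m) A Z deg D) ∧
              ∀ n : ℤ, ParshinIn T (A.prod Z) n ↔
                ∀ l : ℤ, n - A.dim ≤ l → l ≤ n → ParshinIn T Z l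

/-- `BeilinsonReduces K q f`: the following holds for the Chow groups `C` with rational coefficients
of all classes `𝒱` of varieties over fields `k` (finite, in the intended use), every Weil cohomology
theory `H` with coefficients in an algebraically closed field `F` of characteristic zero and all
`A`, `Z` as in `IsNilPair`, where the Frobenius endomorphism `πA × πZ` of `A × Z` acts on its Chow
groups in the usual way, for the higher Chow groups `T m`, `m ≥ 0`, and for all `n`: Beilinson's
conjecture holds for `A × Z` in weight `n` if and only if it holds for `Z` in all weights `l` with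
`n - dim A ≤ l ≤ n`; the same for the injectivity of the map `F ⊗ CH^n(A × Z) → H(A × Z)`
alone. -/
def BeilinsonReduces {I : Type} (K : I → Type) [∀ i, Field (K i)] (q : ℕ) (f : I → ℤ[X]) : Prop :=
  ∀ (k : Type) [Field k] (𝒱 : VarClass k) (C : TheoryData.{0, 0, 0} 𝒱 ℚ) [IsChow C]
    (F : Type) [Field F] [IsAlgClosed F] [CharZero F] (H : WeilTheoryData.{0, 0, 0} C F)
    [IsWeil H] (s : ℕ) (A Z : 𝒱.Obj) (πA : A ⟶ A) (πZ : Z ⟶ Z),
      IsNilPair H K q s f πA πZ → IsFrobenius C (prodMap πA πZ) (q ^ s) →
        ∀ T : ℕ → MotivicData C, IsHigherChow T (prodMap πA πZ) (q ^ s) → ∀ n : ℤ,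
          (BeilinsonIn H T (A.prod Z) n ↔
            ∀ l : ℤ, n - A.dim ≤ l → l ≤ n → BeilinsonIn H T Z l) ∧
          (CycleMapInjective H (A.prod Z) n ↔
            ∀ l : ℤ, n - A.dim ≤ l → l ≤ n → CycleMapInjective H Z l)

/-- `PairingReduces K q f`: the following holds for the Chow groups `C` with rational coefficients
of all classes `𝒱` of varieties over fields `k` (finite, in the intended use), every Weil cohomology
theory `H` with coefficients in an algebraically closed field `F` of characteristic zero and all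
`A`, `Z` as in `IsNilPair`, where the Frobenius endomorphism `πA × πZ` of `A × Z` acts on its Chow
groups in the usual way, for the higher Chow groups `T m`, `m ≥ 0`, and for all `n`: the statement
`BP(n)` holds for `A × Z` if and only if `BP(l)` holds for `Z` for all `l` with
`n - dim A ≤ l ≤ n`. -/
def PairingReduces {I : Type} (K : I → Type) [∀ i, Field (K i)] (q : ℕ) (f : I → ℤ[X]) : Prop :=
  ∀ (k : Type) [Field k] (𝒱 : VarClass k) (C : TheoryData.{0, 0, 0} 𝒱 ℚ) [IsChow C]
    (F : Type) [Field F] [IsAlgClosed F] [CharZero F] (H : WeilTheoryData.{0, 0, 0} C F)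
    [IsWeil H] (s : ℕ) (A Z : 𝒱.Obj) (πA : A ⟶ A) (πZ : Z ⟶ Z),
      IsNilPair H K q s f πA πZ → IsFrobenius C (prodMap πA πZ) (q ^ s) →
        ∀ T : ℕ → MotivicData C, IsHigherChow T (prodMap πA πZ) (q ^ s) → ∀ n : ℤ,
          PairingIn T (A.prod Z) n ↔ ∀ l : ℤ, n - A.dim ≤ l → l ≤ n → PairingIn T Z l

end Pool.Agent.Q64.CT
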