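import Mathlib
import Pool.Agent.Q64.CT.WDefs

/-!
# Products with almost all abelian varieties, one weight at a time: definitions
-/

set_option autoImplicit false

open CategoryTheory AlgebraicGeometry

universe u v w

namespace Pool.Agent.Q64.CT

open Polynomial Pool.Agent.H914 Pool.Agent.H914.VarClass Pool.Agent.H914.VarClass.Obj
  Pool.Agent.W492.BB Pool.Agent.W484.CK Pool.Agent.Y1.CT

/-- `WeightForRank E q r f`: the following holds for the Chow groups `C` with rational coefficients of
all classes `𝒱` of varieties over fields `k` (finite, in the intended use), every Weil cohomology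
theory `H` with coefficients in an algebraically closed field `F` of characteristic zero and all
`A`, `Z` as in `IsSituation`, where the Frobenius endomorphism `πA × πZ` of `A × Z` acts on its Chow
groups in the usual way. There are products `D j` of `deg j` divisor classes on `A`, finitely many,
such that for the higher Chow groups `T m`, `m ≥ 0`, the Kunneth formula
`CH^i(A × Z, m)_ℚ = ⨁ D j × CH^(i - deg j)(Z, m)_ℚ` holds for all `i`, and for every `n`
Parshin's conjecture holds for `A × Z` in weight `n` if and only if it holds for `Z` in all weights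
`l` with `n - dim A ≤ l ≤ n`. -/
def WeightForRank (E : IntermediateField ℚ ℂ) (q r : ℕ) {I : Type} (f : I → ℤ[X]) : Prop :=
  ∀ (k : Type) [Field k] (𝒱 : VarClass k) (C : TheoryData.{0, 0, 0} 𝒱 ℚ) [IsChow C]
    (F : Type) [Field F] [IsAlgClosed F] [CharZero F] (H : WeilTheoryData.{0, 0, 0} C F)
    [IsWeil H] (s : ℕ) (A Z : 𝒱.Obj) (πA : A ⟶ A) (πZ : Z ⟶ Z),
      IsSituation H E q r s f πA πZ → IsFrobenius C (prodMap πA πZ) (q ^ s) →
        ∃ (J : Type) (_ : Fintype J) (deg : J → ℕ) (D : J → C.A A),
          (∀ j, DivisorProduct C (deg j) (D j)) ∧ ∀ T : ℕ → MotivicData C,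
            IsHigherChow T (prodMap πA πZ) (q ^ s) → (∀ m, HasKunneth (T m) A Z deg D) ∧
              ∀ n : ℤ, ParshinIn T (A.prod Z) n ↔
                ∀ l : ℤ, n - A.dim ≤ l → l ≤ n → ParshinIn T Z l

/-- `BeilinsonForRank E q r f`: the following holds for the Chow groups `C` with rational coefficients
of all classes `𝒱` of varieties over fields `k` (finite, in the intended use), every Weil cohomology
theory `H` with coefficients in an algebraically closed field `F` of characteristic zero and all
`A`, `Z` as in `IsSituation`, where the Frobenius endomorphism `πA × πZ` of `A × Z` acts on its Chow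
groups in the usual way, for the higher Chow groups `T m`, `m ≥ 0`, and for all `n`: Beilinson's
conjecture holds for `A × Z` in weight `n` if and only if it holds for `Z` in all weights `l` with
`n - dim A ≤ l ≤ n`; the same for the injectivity of the map `F ⊗ CH^n(A × Z) → H(A × Z)`
alone. -/
def BeilinsonForRank (E : IntermediateField ℚ ℂ) (q r : ℕ) {I : Type} (f : I → ℤ[X]) : Prop :=
  ∀ (k : Type) [Field k] (𝒱 : VarClass k) (C : TheoryData.{0, 0, 0} 𝒱 ℚ) [IsChow C]
    (F : Type) [Field F] [IsAlgClosed F] [CharZero F] (H : WeilTheoryData.{0, 0, 0} C F)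
    [IsWeil H] (s : ℕ) (A Z : 𝒱.Obj) (πA : A ⟶ A) (πZ : Z ⟶ Z),
      IsSituation H E q r s f πA πZ → IsFrobenius C (prodMap πA πZ) (q ^ s) →
        ∀ T : ℕ → MotivicData C, IsHigherChow T (prodMap πA πZ) (q ^ s) → ∀ n : ℤ,
          (BeilinsonIn H T (A.prod Z) n ↔
            ∀ l : ℤ, n - A.dim ≤ l → l ≤ n → BeilinsonIn H T Z l) ∧
          (CycleMapInjective H (A.prod Z) n ↔
            ∀ l : ℤ, n - A.dim ≤ l → l ≤ n → CycleMapInjective H Z l)

/-- `PairingForRank E q r f`: the following holds for the Chow groups `C` with rational coefficients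
of all classes `𝒱` of varieties over fields `k` (finite, in the intended use), every Weil cohomology
theory `H` with coefficients in an algebraically closed field `F` of characteristic zero and all
`A`, `Z` as in `IsSituation`, where the Frobenius endomorphism `πA × πZ` of `A × Z` acts on its Chow
groups in the usual way, for the higher Chow groups `T m`, `m ≥ 0`, and for all `n`: the statement
`BP(n)` holds for `A × Z` if and only if `BP(l)` holds for `Z` for all `l` with
`n - dim A ≤ l ≤ n`. -/
def PairingForRank (E : IntermediateField ℚ ℂ) (q r : ℕ) {I : Type} (f : I → ℤ[X]) : Prop :=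
  ∀ (k : Type) [Field k] (𝒱 : VarClass k) (C : TheoryData.{0, 0, 0} 𝒱 ℚ) [IsChow C]
    (F : Type) [Field F] [IsAlgClosed F] [CharZero F] (H : WeilTheoryData.{0, 0, 0} C F)
    [IsWeil H] (s : ℕ) (A Z : 𝒱.Obj) (πA : A ⟶ A) (πZ : Z ⟶ Z),
      IsSituation H E q r s f πA πZ → IsFrobenius C (prodMap πA πZ) (q ^ s) →
        ∀ T : ℕ → MotivicData C, IsHigherChow T (prodMap πA πZ) (q ^ s) → ∀ n : ℤ,
          PairingIn T (A.prod Z) n ↔ ∀ l : ℤ, n - A.dim ≤ l → l ≤ n → PairingIn T Z l

end Pool.Agent.Q64.CT
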