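import Mathlib
import Pool.Agent.Q64.CT.Defs
import Pool.Agent.Y1.CT.UnrelRel
import Pool.Agent.Y1.CT.More

/-!
# Products of abelian varieties with unrelated varieties: the proofs
-/

set_option autoImplicit false
set_option linter.unusedSectionVars false
set_option linter.unusedVariables false

open CategoryTheory AlgebraicGeometry

universe u v w

namespace Pool.Agent.Q64.CT

open Module Polynomial NumberField Pool.Agent.H914 Pool.Agent.H914.VarClass
  Pool.Agent.H914.VarClass.Obj Pool.Agent.W492.BB Pool.Agent.W550.Corr Pool.Agent.W484.CK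
  Pool.Agent.Y1.CT Pool.Agent.W484.AA Pool.Agent.W484.TB Pool.Agent.Y1.KN
  Pool.Agent.H204R3.CM Pool.Agent.H977R3.CM Pool.Agent.TH170

section

variable {I : Type} {K : I → Type} [∀ i, Field (K i)] {q : ℕ} (hq : 1 < q) {f : I → ℤ[X]}
  (hR : NoRel f q (Unrelated K))

include hq hR

theorem weightsReduce : WeightsReduce K q f := by
  intro k _ 𝒱 C _ F _ _ _ H _ s A Z πA πZ hsit
  obtain ⟨J, hJ, deg, D, E', hdual, hD, hK⟩ := kunneth_main hq hR
    (isStandard_bridge hsit.standard) hsit.pos (isAbelian_bridge hsit.abelian)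
    (πZ := πZ) hsit.unrelated (nilpotence_bridge hsit.nilpotence)
  refine ⟨J, hJ, deg, D, hD, fun T hT hπ => ?_⟩
  have h1 : W484.CH.HasKunneth (toCorr T) A Z deg D := W484.CH.hasKunneth_of hdual
    (toCorr_isCorrTheory hT) (hK (toCorr T) (toCorr_isCorrTheory hT) (toCorr_actsAsPower hπ))
  refine ⟨h1, fun n => ?_⟩
  rw [vanishes_iff, vanishes_iff]
  exact W484.CH.vanish_iff (toCorr_isCorrTheory hT) h1 n

theorem parshinReduces : ParshinReduces K q f := by
  intro k _ 𝒱 C _ F _ _ _ H _ s A Z πA πZ hsit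
  obtain ⟨J, hJ, deg, D, hD, hT⟩ := weightsReduce hq hR k 𝒱 C F H s A Z πA πZ hsit
  refine ⟨J, hJ, deg, D, hD, fun T hK hπ => ?_⟩
  obtain ⟨h1, h2⟩ := hT T hK.motivic hπ
  refine ⟨h1, ?_⟩
  rw [Y159.Par.parshin_iff hK, Y159.Par.parshin_iff hK]
  exact forall_congr' h2

theorem ncParshinReduces : NCParshinReduces K q f := by
  intro k _ 𝒱 C _ hI F _ _ _ H _ s A Z πA πZ hsit
  obtain ⟨J, hJ, deg, D, E', hne, hdual, hD, hE, hK⟩ := kunneth_both hq hR
    (isStandard_bridge hsit.standard) hsit.pos (isAbelian_bridge hsit.abelian)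
    (πZ := πZ) hsit.unrelated (nilpotence_bridge hsit.nilpotence)
  have key : ∀ T : MotivicData C, IsMotivic T → T.IsExhausted →
      ActsAsPower T (prodMap πA πZ) (q ^ s) → ∀ e : C.A (Z.prod Z), IsIdempotent C e →
        T.KunnethFor A e D ∧ (T.Trivial (relative C A e) ↔ T.Trivial e) := by
    intro T hT hex hπ e _
    have hT' := fun i m hm => (hK (toCorr T) (toCorr_isCorrTheory hT)
      (toCorr_actsAsPower hπ) i m hm).1
    exact ⟨kunnethFor_of hI hT hdual hex hT' e, trivial_iff hI hT hdual hex hT' e⟩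
  refine ⟨J, hJ, deg, D, hD, fun T hT e he => ⟨fun n => ?_, ?_⟩⟩
  · exact (key (T n) (hT.motivic n) (hT.exhausted n) (hT.frobenius n) e he).1
  · refine forall_congr' fun n => forall_congr' fun _ => ?_
    exact (key (T n) (hT.motivic n) (hT.exhausted n) (hT.frobenius n) e he).2

theorem ncNumReduces : NCNumReduces K q f := by
  intro k _ 𝒱 C _ hI F _ _ _ H _ s A Z πA πZ hsit hF
  obtain ⟨J, hJ, deg, D, E', hne, hdual, hD, hE, hK⟩ := kunneth_both hq hR
    (isStandard_bridge hsit.standard) hsit.pos (isAbelian_bridge hsit.abelian)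
    (πZ := πZ) hsit.unrelated (nilpotence_bridge hsit.nilpotence)
  have hT' := fun i m hm => (hK (toCorr (chowMot C)) (toCorr_isCorrTheory chowMot_isMotivic)
    (toCorr_actsAsPower (chowMot_actsAsPower hF)) i m hm).1
  exact ⟨J, hJ, deg, D, hD, fun e _ => ⟨kzeroKunneth_of hdual hI hT' e,
    nondegenerate_iff hdual hI hT' e⟩⟩

theorem ncTateReduces : NCTateReduces K q f := by
  intro k _ 𝒱 C _ hI F _ _ _ H _ s A Z πA πZ hsit
  obtain ⟨J, hJ, deg, D, E', hne, hdual, hD, hE, hK⟩ := kunneth_eigen hq hR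
    (isStandard_bridge hsit.standard) hsit.pos (isAbelian_bridge hsit.abelian)
    (πZ := πZ) hsit.unrelated
  have hK' := fun i w hw => (hK i w hw).1
  have hQ : q ^ s ≠ 0 := pow_ne_zero _ (by omega)
  have hπA := isFrobenius_bridge hsit.abelian.frobenius
  exact ⟨J, hJ, deg, D, hD, fun e he => ⟨tateKunneth_of hI hdual hQ hπA hK' e,
    ncTate_iff hI hdual hQ hπA hK' he⟩⟩

theorem perfectReduces : PerfectReduces K q f := by
  intro k _ 𝒱 C _ F _ _ _ H _ s A Z πA πZ hsit hF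
  obtain ⟨J, hJ, deg, D, E', hdual, hD, hK⟩ := kunneth_main hq hR
    (isStandard_bridge hsit.standard) hsit.pos (isAbelian_bridge hsit.abelian)
    (πZ := πZ) hsit.unrelated (nilpotence_bridge hsit.nilpotence)
  have h1 : W484.CH.HasKunneth (W484.CH.chowData C) A Z deg D := W484.CH.hasKunneth_of hdual
    W484.CH.chowData_isCorrTheory (hK (W484.CH.chowData C) W484.CH.chowData_isCorrTheory
      (W484.CH.chowData_actsAsPower (isFrobenius_bridge hF)))
  refine ⟨⟨J, hJ, deg, D, hD, fun i y hy => ?_⟩, fun n => ?_⟩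
  · obtain ⟨z, ⟨hz1, hz2⟩, hz3⟩ := h1 i y hy
    have h2 : ∀ z' : J → C.A Z, ∑ j, times C (D j) (z' j) =
        ∑ j, (W484.CH.chowData C).act (W484.CH.extBy C Z (D j)) (z' j) := fun z' =>
      Finset.sum_congr rfl fun j _ => (W484.CH.act_extBy C (D j) (z' j)).symm
    refine ⟨z, ⟨hz1, ?_⟩, fun z' hz' => hz3 z' ⟨hz'.1, ?_⟩⟩
    · rw [h2 z]
      exact hz2
    · rw [← h2 z']
      exact hz'.2
  · exact Y154.BQ.perfectIn_prod_iff' (isStandard_bridge hsit.standard) hdual h1 hD n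

end

open Classical in
/-- **The number of the exceptional families of slope types**, explicit bound. -/
theorem count :
    ∃ C : ℝ, 0 ≤ C ∧ ∀ (p : ℕ) [Fact p.Prime] (ν : PadicAlgCl p ≃+* ℂ) (I : Type) [Fintype I]
      (K : I → Type) [∀ i, Field (K i)] [∀ i, NumberField (K i)] [∀ i, IsCMField (K i)]
      (M : ∀ i, (K i →+* ℂ) → ℤ) (n g q : I → ℕ) (D : I → ℝ), PairwiseIndep K →
      (∀ i φ, M i (ComplexEmbedding.conjugate φ) = M i φ) → (∀ i, n i ≠ 0) →
      (∀ i φ, M i φ ∣ (n i : ℤ)) → (∀ i, finrank ℚ (K i) = 2 * g i) →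
      (∀ i, q i ∣ g i ∧ (q i = 1 ∨ (q i).Prime)) → (∀ i, 1 ≤ D i) →
      (∀ (i : I) (F : IntermediateField ℚ (K i)), IsCMField F → IsGalois ℚ F →
        ¬ IsAbelianGalois ℚ F → (finrank ℚ F : ℝ) ≤ D i) →
      ∀ P : ℕ → (I → ℤ[X]) → Prop,
      (∀ (Q : ℕ) (f : I → ℤ[X]), 1 < Q → NoRel f Q (Unrelated K) → P Q f) →
      (({Φ : ∀ i, Set (K i →+* ℂ) | (∀ i, IsCMType (Φ i)) ∧
        ¬ ForAllTypes ν K M P Φ}.ncard : ℕ) : ℝ) ≤
        2 ^ (∑ i, g i) * ∑ i, C * (n i : ℝ) ^ 2 * ((1 + Real.log (2 * g i)) ^ 16 *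
          min ((numCMSubfields (K i) : ℝ) ^ 2 * D i ^ (1 / 4 : ℝ) / √(g i)) (√(g i) / q i)) := by
  obtain ⟨C, hC0, hC⟩ := ncard_of_unrel
  refine ⟨C, hC0, ?_⟩
  intro p _ ν I _ K _ _ _ M n g q D hind hM hn hMn hg hq hD hDF P hP
  refine (hC p ν I K M n g q hind hM hn hMn hg hq P hP).trans ?_
  refine mul_le_mul_of_nonneg_left ?_ (by positivity)
  refine Finset.sum_le_sum fun i _ => ?_
  refine mul_le_mul_of_nonneg_left ?_ (by positivity)
  unfold rate
  have hgi : (1 : ℝ) ≤ 2 * g i := by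
    have h1 : 0 < finrank ℚ (K i) := finrank_pos
    rw [hg i] at h1
    have h2 : 1 ≤ 2 * g i := h1
    exact_mod_cast h2
  have hlog : 0 ≤ Real.log (2 * (g i : ℝ)) := Real.log_nonneg hgi
  refine mul_le_mul_of_nonneg_left ?_ (by positivity)
  refine min_le_min_right _ ?_
  exact div_le_div_of_nonneg_right (weight_estimate_holds (K i) (D i) (hD i) (hDF i))
    (Real.sqrt_nonneg _)

end Pool.Agent.Q64.CT
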