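import Mathlib
import Pool.Agent.Q64.CT.WDefs
import Pool.Agent.Q64.CT.Thms

/-!
# Products of abelian varieties with unrelated varieties, one weight at a time: the proofs
-/

set_option autoImplicit false
set_option linter.unusedSectionVars false
set_option linter.unusedVariables false

open CategoryTheory AlgebraicGeometry

universe u v w

namespace Pool.Agent.Q64.CT

open Module Polynomial NumberField Pool.Agent.H914 Pool.Agent.H914.VarClass
  Pool.Agent.H914.VarClass.Obj Pool.Agent.W492.BB Pool.Agent.W550.Corr Pool.Agent.W484.CK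
  Pool.Agent.Y1.CT Pool.Agent.W484.AA Pool.Agent.W484.TB Pool.Agent.Y1.KN

section core

variable {k : Type u} [Field k] {𝒱 : VarClass k} {C : TheoryData.{u, v, 0} 𝒱 ℚ}
  {F : Type w} [Field F] [CharZero F] {H : WeilTheoryData.{u, v, w} C F} [hC : IsChow C]
  [hH : IsWeil H] {A Z : 𝒱.Obj} {J : Type} [Fintype J] {deg : J → ℕ} {D E : J → C.A A}

/-- Vanishing in one degree. -/
theorem vanish_at_iff (h : W484.CH.IsDual A Z deg D E) (hdeg : ∀ l ≤ A.dim, ∃ j, deg j = l)
    {T : W484.CH.CorrData C} (hT : W484.CH.IsCorrTheory T)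
    (hK : W484.CH.HasKunneth T A Z deg D) (n : ℤ) :
    (∀ x ∈ T.gr (A.prod Z) n, x = 0) ↔
      ∀ l : ℤ, n - A.dim ≤ l → l ≤ n → ∀ z ∈ T.gr Z l, z = 0 := by
  classical
  constructor
  · intro hv l hl1 hl2 z hz
    obtain ⟨j, hj⟩ := hdeg (n - l).toNat (by omega)
    have h1 := W484.CH.act_ext_mem hT h j hz
    have h2 : l + (deg j : ℤ) = n := by omega
    rw [h2] at h1
    have h3 := hv _ h1
    have h4 := W484.CH.act_pair_ext hT h j j z
    rw [h3, map_zero, if_pos rfl] at h4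
    exact h4.symm
  · intro hv x hx
    obtain ⟨z, ⟨hz, hxz⟩, -⟩ := hK n x hx
    rw [hxz]
    refine Finset.sum_eq_zero fun j _ => ?_
    have h1 : z j = 0 := hv (n - deg j) (by have := h.le j; omega) (by omega) _ (hz j)
    change T.act (W484.CH.extBy C Z (D j)) (z j) = 0
    rw [h1, map_zero]

/-- The injectivity of the cycle class map. -/
theorem inj_iff (h : W484.CH.IsDual A Z deg D E) (hdeg : ∀ l ≤ A.dim, ∃ j, deg j = l)
    (hK : W484.CH.HasKunneth (W484.CH.chowData C) A Z deg D) (n : ℤ) :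
    CycleMapInjective H (A.prod Z) n ↔
      ∀ l : ℤ, n - A.dim ≤ l → l ≤ n → CycleMapInjective H Z l := by
  classical
  constructor
  · intro hv l hl1 hl2 r c x hc hx h0 i
    obtain ⟨j, hj⟩ := hdeg (n - l).toNat (by omega)
    have h2 : (deg j : ℤ) + l = n := by omega
    have h1 : C.ext (D j) (x i) = 0 := by
      refine hv r c (fun i => C.ext (D j) (x i)) hc (fun i => ?_) ?_ i
      · have := C.mul_mem (C.pull_mem (fst A Z) (h.left j)) (C.pull_mem (snd A Z) (hx i))
        rw [h2] at this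
        exact this
      · have h3 : ∀ i, H.cl (C.ext (D j) (x i)) =
            H.pull (fst A Z) (H.cl (D j)) * H.pull (snd A Z) (H.cl (x i)) := by
          intro i
          rw [TheoryData.ext, map_mul, H.cl_pull, H.cl_pull]
        rw [Finset.sum_congr rfl fun i _ => by rw [h3 i]]
        rw [Finset.sum_congr rfl fun i _ => (mul_smul_comm (c i) _ _).symm, ← Finset.mul_sum]
        rw [Finset.sum_congr rfl fun i _ => (map_smul (H.pull (snd A Z)) (c i) (H.cl (x i))).symm,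
          ← map_sum, h0, map_zero, mul_zero]
    have h4 := Y154.BQ.push_ext (Z := Z) (E j) (D j) (x i)
    rw [h1, mul_zero, map_zero, h.eq j, one_mul] at h4
    exact h4.symm
  · intro hv r c x hc hx h0 i
    rw [W484.CH.chow_expand h hK (hx i)]
    refine Finset.sum_eq_zero fun j _ => ?_
    have h1 : C.push (snd A Z) (C.pull (fst A Z) (E j) * x i) = 0 := by
      refine hv (n - deg j) (by have := h.le j; omega) (by omega) r c
        (fun i => C.push (snd A Z) (C.pull (fst A Z) (E j) * x i)) hc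
        (fun i => W484.CH.push_snd_mem (h.right j) (hx i)) ?_ i
      have h3 : ∀ i, H.cl (C.push (snd A Z) (C.pull (fst A Z) (E j) * x i)) =
          H.push (snd A Z) (H.pull (fst A Z) (H.cl (E j)) * H.cl (x i)) := by
        intro i
        rw [H.cl_push, map_mul, H.cl_pull]
      rw [Finset.sum_congr rfl fun i _ => by rw [h3 i]]
      rw [Finset.sum_congr rfl fun i _ => (map_smul (H.push (snd A Z)) (c i) _).symm, ← map_sum]
      rw [Finset.sum_congr rfl fun i _ => (mul_smul_comm (c i) _ _).symm, ← Finset.mul_sum, h0,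
        mul_zero, map_zero]
    rw [h1, C.ext_zero_right]

end core

section

variable {I : Type} {K : I → Type} [∀ i, Field (K i)] {q : ℕ} (hq : 1 < q) {f : I → ℤ[X]}
  (hR : NoRel f q (Unrelated K))

include hq hR

theorem core_all (k : Type) [Field k] (𝒱 : VarClass k) (C : TheoryData.{0, 0, 0} 𝒱 ℚ) [IsChow C]
    (F : Type) [Field F] [IsAlgClosed F] [CharZero F] (H : WeilTheoryData.{0, 0, 0} C F)
    [IsWeil H] (s : ℕ) (A Z : 𝒱.Obj) (πA : A ⟶ A) (πZ : Z ⟶ Z)
    (hsit : IsNilPair H K q s f πA πZ) (hF : IsFrobenius C (prodMap πA πZ) (q ^ s)) :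
    ∃ (J : Type) (_ : Fintype J) (deg : J → ℕ) (D : J → C.A A),
      (∀ j, DivisorProduct C (deg j) (D j)) ∧
      (∀ n : ℤ, CycleMapInjective H (A.prod Z) n ↔
        ∀ l : ℤ, n - A.dim ≤ l → l ≤ n → CycleMapInjective H Z l) ∧
      (∀ n : ℤ, PerfectAt C (A.prod Z) n ↔ ∀ m : ℤ, n - A.dim ≤ m → m ≤ n → PerfectAt C Z m) ∧
      ∀ T : ℕ → MotivicData C,
        IsHigherChow T (prodMap πA πZ) (q ^ s) → (∀ m, HasKunneth (T m) A Z deg D) ∧
          ∀ n : ℤ, ParshinIn T (A.prod Z) n ↔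
            ∀ l : ℤ, n - A.dim ≤ l → l ≤ n → ParshinIn T Z l := by
  obtain ⟨J, hJ, deg, D, E', hdual, hD, hK⟩ := kunneth_main hq hR
    (isStandard_bridge hsit.standard) hsit.pos (isAbelian_bridge hsit.abelian)
    (πZ := πZ) hsit.unrelated (nilpotence_bridge hsit.nilpotence)
  have hS := isStandard_bridge hsit.standard
  have h1 : W484.CH.HasKunneth (W484.CH.chowData C) A Z deg D := W484.CH.hasKunneth_of hdual
    W484.CH.chowData_isCorrTheory (hK (W484.CH.chowData C) W484.CH.chowData_isCorrTheory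
      (W484.CH.chowData_actsAsPower (isFrobenius_bridge hF)))
  have hdeg : ∀ l ≤ A.dim, ∃ j, deg j = l := fun l hl =>
    Y154.BQ.exists_deg_eq hS hdual h1 hD hl
  refine ⟨J, hJ, deg, D, hD, fun n => inj_iff hdual hdeg h1 n,
    fun n => Y154.BQ.perfectIn_prod_iff' hS hdual h1 hD n, fun T hT => ?_⟩
  have h2 : ∀ m, W484.CH.HasKunneth (toCorr (T m)) A Z deg D := fun m =>
    W484.CH.hasKunneth_of hdual (toCorr_isCorrTheory (hT.motivic m))
      (hK (toCorr (T m)) (toCorr_isCorrTheory (hT.motivic m))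
        (toCorr_actsAsPower (hT.frobenius m)))
  refine ⟨h2, fun n => ?_⟩
  have h3 : ∀ m, (∀ x : (T m).M (A.prod Z), (T m).Deg n x → x = 0) ↔
      ∀ l : ℤ, n - A.dim ≤ l → l ≤ n → ∀ z : (T m).M Z, (T m).Deg l z → z = 0 := fun m =>
    vanish_at_iff hdual hdeg (toCorr_isCorrTheory (hT.motivic m)) (h2 m) n
  constructor
  · intro h l hl1 hl2 m hm
    exact (h3 m).1 (h m hm) l hl1 hl2
  · intro h m hm
    exact (h3 m).2 fun l hl1 hl2 => h l hl1 hl2 m hm

theorem weightReduces : WeightReduces K q f := by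
  intro k _ 𝒱 C _ F _ _ _ H _ s A Z πA πZ hsit hF
  obtain ⟨J, hJ, deg, D, hD, -, -, h⟩ := core_all hq hR k 𝒱 C F H s A Z πA πZ hsit hF
  exact ⟨J, hJ, deg, D, hD, h⟩

theorem beilinsonReduces : BeilinsonReduces K q f := by
  intro k _ 𝒱 C _ F _ _ _ H _ s A Z πA πZ hsit hF T hT n
  obtain ⟨J, hJ, deg, D, hD, h1, -, h⟩ := core_all hq hR k 𝒱 C F H s A Z πA πZ hsit hF
  obtain ⟨-, h2⟩ := h T hT
  refine ⟨?_, h1 n⟩
  unfold BeilinsonIn
  rw [h1 n, h2 n]
  constructor
  · rintro ⟨h3, h4⟩ l hl1 hl2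
    exact ⟨h3 l hl1 hl2, h4 l hl1 hl2⟩
  · intro h3
    exact ⟨fun l hl1 hl2 => (h3 l hl1 hl2).1, fun l hl1 hl2 => (h3 l hl1 hl2).2⟩

theorem pairingReduces : PairingReduces K q f := by
  intro k _ 𝒱 C _ F _ _ _ H _ s A Z πA πZ hsit hF T hT n
  obtain ⟨J, hJ, deg, D, hD, -, h1, h⟩ := core_all hq hR k 𝒱 C F H s A Z πA πZ hsit hF
  obtain ⟨-, h2⟩ := h T hT
  have hdim : ((A.prod Z).dim : ℤ) = A.dim + Z.dim := by
    rw [Obj.dim_prod]; push_cast; ring
  unfold PairingIn
  rw [h1 n, h2 n, h2 ((A.prod Z).dim - n)]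
  constructor
  · rintro ⟨h3, h4, h5⟩ l hl1 hl2
    exact ⟨h3 l hl1 hl2, h4 l hl1 hl2, h5 _ (by omega) (by omega)⟩
  · intro h3
    refine ⟨fun l hl1 hl2 => (h3 l hl1 hl2).1, fun l hl1 hl2 => (h3 l hl1 hl2).2.1,
      fun l hl1 hl2 => ?_⟩
    have h4 := (h3 (Z.dim - l) (by omega) (by omega)).2.2
    rwa [sub_sub_cancel] at h4

end

end Pool.Agent.Q64.CT
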