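import Mathlib
import Pool.Agent.Q64.CT.ADefs
import Pool.Agent.Q64.CT.Weights
import Pool.Agent.Y122.NCP.Main
import Pool.Agent.W484.CK.Main

/-!
# Products with almost all abelian varieties, one weight at a time: the proofs
-/

set_option autoImplicit false
set_option linter.unusedSectionVars false
set_option linter.unusedVariables false

open CategoryTheory AlgebraicGeometry

universe u v w

namespace Pool.Agent.Q64.CT

open Module Polynomial NumberField Pool.Agent.H914 Pool.Agent.H914.VarClass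
  Pool.Agent.H914.VarClass.Obj Pool.Agent.W492.BB Pool.Agent.W550.Corr Pool.Agent.W484.CK
  Pool.Agent.Y1.CT Pool.Agent.W484.AA Pool.Agent.W484.TB Pool.Agent.W484.HS
  Pool.Agent.W521.Frob Pool.Agent.W521.Count Pool.Agent.W521.Bad Pool.Agent.W521.Descent
  Pool.Agent.W521.Density

section

variable {I : Type} [Finite I] (g : I → ℕ) (E : IntermediateField ℚ ℂ) [FiniteDimensional ℚ E]
  {q : ℕ} (hq : 1 < q) (r : ℕ) (hr : ∀ i, r < g i)
  (x : (Σ i, Fin (g i)) → ℤ) (hx : GoodU (splitPrimes E) g q x)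

include hq hr hx

theorem core_rank (k : Type) [Field k] (𝒱 : VarClass k) (C : TheoryData.{0, 0, 0} 𝒱 ℚ) [IsChow C]
    (F : Type) [Field F] [IsAlgClosed F] [CharZero F] (H : WeilTheoryData.{0, 0, 0} C F)
    [IsWeil H] (s : ℕ) (A Z : 𝒱.Obj) (πA : A ⟶ A) (πZ : Z ⟶ Z)
    (hsit : IsSituation H E q r s (fun i => weil q (polys g x i)) πA πZ)
    (hF : IsFrobenius C (prodMap πA πZ) (q ^ s)) :
    ∃ (J : Type) (_ : Fintype J) (deg : J → ℕ) (D : J → C.A A),
      (∀ j, DivisorProduct C (deg j) (D j)) ∧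
      (∀ n : ℤ, CycleMapInjective H (A.prod Z) n ↔
        ∀ l : ℤ, n - A.dim ≤ l → l ≤ n → CycleMapInjective H Z l) ∧
      (∀ n : ℤ, PerfectAt C (A.prod Z) n ↔ ∀ m : ℤ, n - A.dim ≤ m → m ≤ n → PerfectAt C Z m) ∧
      ∀ T : ℕ → MotivicData C,
        IsHigherChow T (prodMap πA πZ) (q ^ s) → (∀ m, HasKunneth (T m) A Z deg D) ∧
          ∀ n : ℤ, ParshinIn T (A.prod Z) n ↔
            ∀ l : ℤ, n - A.dim ≤ l → l ≤ n → ParshinIn T Z l := by
  obtain ⟨J, hJ, deg, D, E', hdual, hD, hK⟩ := W484.CH.kunneth_main g E hq r hr x hx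
    (isStandard_bridge hsit.standard) hsit.pos (isAbelian_bridge hsit.abelian)
    (πZ := πZ) hsit.rank (nilpotence_bridge hsit.nilpotence)
  have hS := isStandard_bridge hsit.standard
  have h1 : W484.CH.HasKunneth (W484.CH.chowData C) A Z deg D := W484.CH.hasKunneth_of hdual
    W484.CH.chowData_isCorrTheory (hK (W484.CH.chowData C) W484.CH.chowData_isCorrTheory
      (W484.CH.chowData_actsAsPower (isFrobenius_bridge hF)))
  have hdeg : ∀ l ≤ A.dim, ∃ j, deg j = l := fun l hl =>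
    Y154.BQ.exists_deg_eq hS hdual h1 hD hl
  refine ⟨J, hJ, deg, D, hD, fun n => inj_iff hdual hdeg h1 n,
    fun n => Y154.BQ.perfectIn_prod_iff' hS hdual h1 hD n, fun T hT => ?_⟩
  have h2 : ∀ m, W484.CH.HasKunneth (toCorr (T m)) A Z deg D := fun m =>
    W484.CH.hasKunneth_of hdual (toCorr_isCorrTheory (hT.motivic m))
      (hK (toCorr (T m)) (toCorr_isCorrTheory (hT.motivic m))
        (toCorr_actsAsPower (hT.frobenius m)))
  refine ⟨h2, fun n => ?_⟩
  have h3 : ∀ m, (∀ x : (T m).M (A.prod Z), (T m).Deg n x → x = 0) ↔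
      ∀ l : ℤ, n - A.dim ≤ l → l ≤ n → ∀ z : (T m).M Z, (T m).Deg l z → z = 0 := fun m =>
    vanish_at_iff hdual hdeg (toCorr_isCorrTheory (hT.motivic m)) (h2 m) n
  constructor
  · intro h l hl1 hl2 m hm
    exact (h3 m).1 (h m hm) l hl1 hl2
  · intro h m hm
    exact (h3 m).2 fun l hl1 hl2 => h l hl1 hl2 m hm

theorem weightForRank : WeightForRank E q r (fun i => weil q (polys g x i)) := by
  intro k _ 𝒱 C _ F _ _ _ H _ s A Z πA πZ hsit hF
  obtain ⟨J, hJ, deg, D, hD, -, -, h⟩ := core_rank g E hq r hr x hx k 𝒱 C F H s A Z πA πZ hsit hF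
  exact ⟨J, hJ, deg, D, hD, h⟩

theorem beilinsonForRank : BeilinsonForRank E q r (fun i => weil q (polys g x i)) := by
  intro k _ 𝒱 C _ F _ _ _ H _ s A Z πA πZ hsit hF T hT n
  obtain ⟨J, hJ, deg, D, hD, h1, -, h⟩ := core_rank g E hq r hr x hx k 𝒱 C F H s A Z πA πZ hsit hF
  obtain ⟨-, h2⟩ := h T hT
  refine ⟨?_, h1 n⟩
  unfold BeilinsonIn
  rw [h1 n, h2 n]
  constructor
  · rintro ⟨h3, h4⟩ l hl1 hl2
    exact ⟨h3 l hl1 hl2, h4 l hl1 hl2⟩
  · intro h3
    exact ⟨fun l hl1 hl2 => (h3 l hl1 hl2).1, fun l hl1 hl2 => (h3 l hl1 hl2).2⟩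

theorem pairingForRank : PairingForRank E q r (fun i => weil q (polys g x i)) := by
  intro k _ 𝒱 C _ F _ _ _ H _ s A Z πA πZ hsit hF T hT n
  obtain ⟨J, hJ, deg, D, hD, -, h1, h⟩ := core_rank g E hq r hr x hx k 𝒱 C F H s A Z πA πZ hsit hF
  obtain ⟨-, h2⟩ := h T hT
  have hdim : ((A.prod Z).dim : ℤ) = A.dim + Z.dim := by
    rw [Obj.dim_prod]; push_cast; ring
  unfold PairingIn
  rw [h1 n, h2 n, h2 ((A.prod Z).dim - n)]
  constructor
  · rintro ⟨h3, h4, h5⟩ l hl1 hl2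
    exact ⟨h3 l hl1 hl2, h4 l hl1 hl2, h5 _ (by omega) (by omega)⟩
  · intro h3
    refine ⟨fun l hl1 hl2 => (h3 l hl1 hl2).1, fun l hl1 hl2 => (h3 l hl1 hl2).2.1,
      fun l hl1 hl2 => ?_⟩
    have h4 := (h3 (Z.dim - l) (by omega) (by omega)).2.2
    rwa [sub_sub_cancel] at h4

end

/-- The count for any property of good families. -/
theorem countA {I : Type} [Fintype I] (g : I → ℕ) (r : ℕ) (hr : ∀ i, r < g i)
    (E : IntermediateField ℚ ℂ) [FiniteDimensional ℚ E] (P : ℕ → (I → ℤ[X]) → Prop)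
    (hP : ∀ q : ℕ, 1 < q → ∀ x : (Σ i, Fin (g i)) → ℤ, GoodU (splitPrimes E) g q x →
      P q (fun i => weil q (polys g x i))) :
    ∃ C : ℝ, ∀ q : ℕ, IsPrimePow q → ∀ S : I → Set ℤ[X],
      (∀ i, ordinaryWeilPolys q (g i) ⊆ S i ∧ S i ⊆ weilPolys q (g i)) →
      (∀ i, (S i).Finite ∧ (S i).Nonempty) ∧
      ({f : I → ℤ[X] | (∀ i, f i ∈ S i) ∧ ¬ P q f}.ncard : ℝ) ≤
        C * (Real.log q * (q : ℝ) ^ (-(1 / 6) : ℝ)) * ∏ i, ((S i).ncard : ℝ) :=
  count_of_goodU (splitPrimes E) (dense_splitPrimes E) g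
    (fun i => (Nat.zero_le r).trans_lt (hr i)) P
    fun _ hq x hx => hP _ hq.one_lt x hx

end Pool.Agent.Q64.CT
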