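import Mathlib
import Pool.Agent.Q64.CT.Defs

/-!
# Rational and numerical equivalence in one codimension
-/

set_option autoImplicit false

open CategoryTheory AlgebraicGeometry

universe u v w

namespace Pool.Agent.Q64.CT

open Polynomial Pool.Agent.H914 Pool.Agent.H914.VarClass Pool.Agent.H914.VarClass.Obj
  Pool.Agent.W492.BB Pool.Agent.W484.CK Pool.Agent.Y1.CT

variable {k : Type u} [Field k] {𝒱 : VarClass k} {C : TheoryData.{u, v, 0} 𝒱 ℚ} {F : Type w}
  [Field F] (H : WeilTheoryData.{u, v, w} C F)

/-- Rational and numerical equivalence coincide for cycles of codimension `c` on `Z`, with rational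
coefficients. (The intersection number of cycles `x`, `y` is the value of the orientation at the
class of `x · y`, up to a nonzero constant.) -/
def RatNumIn (Z : 𝒱.Obj) (c : ℕ) : Prop :=
  ∀ x : C.A Z, C.Deg c x →
    (∀ (d : ℕ) (y : C.A Z), c + d = Z.dim → C.Deg d y → H.tr Z (H.cl (C.mul x y)) = 0) → x = 0

/-- Rational and homological equivalence coincide for cycles of codimension `c` on `Z`, with rational
coefficients. -/
def RatHomIn (Z : 𝒱.Obj) (c : ℕ) : Prop := ∀ x : C.A Z, C.Deg c x → H.cl x = 0 → x = 0

/-- `RatNumReduces K q f`: the following holds for the Chow groups `C` with rational coefficients of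
all classes `𝒱` of varieties over fields `k` (finite, in the intended use), every Weil cohomology
theory `H` with coefficients in an algebraically closed field `F` of characteristic zero, all `A`,
`Z` as in `IsNilPair` where the Frobenius endomorphism `πA × πZ` acts on the Chow groups of `A × Z` in
the usual way: the Kunneth formula holds for the Chow groups of `A × Z`, and for all `c` rational and
numerical equivalence coincide for cycles of codimension `c` on `A × Z` if and only if they coincide
for cycles of codimension `c - i` on `Z` for all `0 ≤ i ≤ dim A`; the same for rational and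
homological equivalence. -/
def RatNumReduces {I : Type} (K : I → Type) [∀ i, Field (K i)] (q : ℕ) (f : I → ℤ[X]) : Prop :=
  ∀ (k : Type) [Field k] (𝒱 : VarClass k) (C : TheoryData.{0, 0, 0} 𝒱 ℚ) [IsChow C]
    (F : Type) [Field F] [IsAlgClosed F] [CharZero F] (H : WeilTheoryData.{0, 0, 0} C F)
    [IsWeil H] (s : ℕ) (A Z : 𝒱.Obj) (πA : A ⟶ A) (πZ : Z ⟶ Z),
      IsNilPair H K q s f πA πZ → IsFrobenius C (prodMap πA πZ) (q ^ s) →
        ChowKunneth C A Z ∧ ∀ c : ℕ,
          (RatNumIn H (A.prod Z) c ↔ ∀ i ≤ A.dim, i ≤ c → RatNumIn H Z (c - i)) ∧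
          (RatHomIn H (A.prod Z) c ↔ ∀ i ≤ A.dim, i ≤ c → RatHomIn H Z (c - i))

end Pool.Agent.Q64.CT
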