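import Mathlib
import Pool.Agent.Q64.CT.RDefs
import Pool.Agent.Q64.CT.Thms
import Pool.Agent.Y1.CT.CodimNum

/-!
# Rational and numerical equivalence in one codimension: the proofs
-/

set_option autoImplicit false
set_option linter.unusedSectionVars false
set_option linter.unusedVariables false

open CategoryTheory AlgebraicGeometry

universe u v w

namespace Pool.Agent.Q64.CT

open Module Polynomial NumberField Pool.Agent.H914 Pool.Agent.H914.VarClass
  Pool.Agent.H914.VarClass.Obj Pool.Agent.W492.BB Pool.Agent.W550.Corr Pool.Agent.W484.CK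
  Pool.Agent.Y1.CT Pool.Agent.W484.AA Pool.Agent.W484.TB Pool.Agent.Y1.KN

section core

variable {k : Type u} [Field k] {𝒱 : VarClass k} {C : TheoryData.{u, v, 0} 𝒱 ℚ}
  {F : Type w} [Field F] [CharZero F] {H : WeilTheoryData.{u, v, w} C F} [hC : IsChow C]
  [hH : IsWeil H] {A Z : 𝒱.Obj} {J : Type} [Fintype J] {deg : J → ℕ} {D E : J → C.A A}

theorem deg_ext (h : W484.CH.IsDual A Z deg D E) {c : ℕ} (j : J) (hj : deg j ≤ c) {x : C.A Z}
    (hx : C.Deg ((c - deg j : ℕ) : ℤ) x) : C.Deg (c : ℤ) (C.ext (D j) x) := by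
  have h2 := C.mul_mem (C.pull_mem (fst A Z) (h.left j)) (C.pull_mem (snd A Z) hx)
  rwa [Nat.cast_sub hj, add_sub_cancel] at h2

theorem eq_zero_of_ext (h : W484.CH.IsDual A Z deg D E) (j : J) {x : C.A Z}
    (hx : C.ext (D j) x = 0) : x = 0 := by
  have h4 := Y154.BQ.push_ext (Z := Z) (E j) (D j) x
  rw [hx, mul_zero, map_zero, h.eq j, one_mul] at h4
  exact h4.symm

theorem ratNumIn_prod_iff (h : W484.CH.IsDual A Z deg D E) (hdeg : ∀ l ≤ A.dim, ∃ j, deg j = l)
    (hK : W484.CH.HasKunneth (W484.CH.chowData C) A Z deg D) (c : ℕ) :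
    RatNumIn H (A.prod Z) c ↔ ∀ i ≤ A.dim, i ≤ c → RatNumIn H Z (c - i) := by
  constructor
  · intro h0 i hi hic x hx hnum
    obtain ⟨j, rfl⟩ := hdeg i hi
    exact eq_zero_of_ext h j (h0 _ (deg_ext h j hic hx) fun d y hd hy =>
      numTrivial_ext h j hx hnum d y (by omega) hy)
  · intro h0 x hx hnum
    rw [W484.CH.chow_expand h hK hx]
    refine Finset.sum_eq_zero fun j _ => ?_
    have h3 := W484.CH.push_snd_mem (h.right j) hx
    have h4 : C.push (snd A Z) (C.pull (fst A Z) (E j) * x) = 0 := by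
      rcases lt_or_ge c (deg j) with hj | hj
      · rw [TheoryData.Deg, C.gr_neg Z _ (by omega), Submodule.mem_bot] at h3
        exact h3
      · rw [← Nat.cast_sub hj] at h3
        exact h0 (deg j) (h.le j) hj _ h3 fun d y hd hy => numTrivial_pair h j hj hnum d y hd hy
    rw [h4, C.ext_zero_right]

theorem ratHomIn_prod_iff (h : W484.CH.IsDual A Z deg D E) (hdeg : ∀ l ≤ A.dim, ∃ j, deg j = l)
    (hK : W484.CH.HasKunneth (W484.CH.chowData C) A Z deg D) (c : ℕ) :
    RatHomIn H (A.prod Z) c ↔ ∀ i ≤ A.dim, i ≤ c → RatHomIn H Z (c - i) := by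
  constructor
  · intro h0 i hi hic x hx hcl
    obtain ⟨j, rfl⟩ := hdeg i hi
    refine eq_zero_of_ext h j (h0 _ (deg_ext h j hic hx) ?_)
    rw [TheoryData.ext, map_mul, H.cl_pull, H.cl_pull, hcl, map_zero, mul_zero]
  · intro h0 x hx hcl
    rw [W484.CH.chow_expand h hK hx]
    refine Finset.sum_eq_zero fun j _ => ?_
    have h3 := W484.CH.push_snd_mem (h.right j) hx
    have h4 : C.push (snd A Z) (C.pull (fst A Z) (E j) * x) = 0 := by
      rcases lt_or_ge c (deg j) with hj | hj
      · rw [TheoryData.Deg, C.gr_neg Z _ (by omega), Submodule.mem_bot] at h3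
        exact h3
      · rw [← Nat.cast_sub hj] at h3
        refine h0 (deg j) (h.le j) hj _ h3 ?_
        rw [H.cl_push, map_mul, hcl, mul_zero, map_zero]
    rw [h4, C.ext_zero_right]

end core

section

variable {I : Type} {K : I → Type} [∀ i, Field (K i)] {q : ℕ} (hq : 1 < q) {f : I → ℤ[X]}
  (hR : NoRel f q (Unrelated K))

include hq hR

theorem ratNumReduces : RatNumReduces K q f := by
  intro k _ 𝒱 C _ F _ _ _ H _ s A Z πA πZ hsit hF
  refine ⟨(perfectReduces hq hR k 𝒱 C F H s A Z πA πZ hsit hF).1, ?_⟩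
  obtain ⟨J, hJ, deg, D, E', hdual, hD, hK⟩ := kunneth_main hq hR
    (isStandard_bridge hsit.standard) hsit.pos (isAbelian_bridge hsit.abelian)
    (πZ := πZ) hsit.unrelated (nilpotence_bridge hsit.nilpotence)
  have h1 : W484.CH.HasKunneth (W484.CH.chowData C) A Z deg D := W484.CH.hasKunneth_of hdual
    W484.CH.chowData_isCorrTheory (hK (W484.CH.chowData C) W484.CH.chowData_isCorrTheory
      (W484.CH.chowData_actsAsPower (isFrobenius_bridge hF)))
  have hdeg : ∀ l ≤ A.dim, ∃ j, deg j = l := fun l hl =>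
    Y154.BQ.exists_deg_eq (isStandard_bridge hsit.standard) hdual h1 hD hl
  exact fun c => ⟨ratNumIn_prod_iff hdual hdeg h1 c, ratHomIn_prod_iff hdual hdeg h1 c⟩

end

end Pool.Agent.Q64.CT
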